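import Pool.Agent.CLK.AbC
import Pool.Agent.CWR.CircH

/-!
# CLK: Jacobian minors of formulas are preserved
-/

set_option autoImplicit false

namespace Pool.Agent.CLK

open MvPolynomial Pool.Agent.ORB Pool.Agent.ORA Pool.Agent.CWR Pool.Agent.CLO

variable {n : ℕ} {O : Type*} [CommRing O] [IsDomain O] [ValuationRing O] {K : Type*} [Field K]
  [Algebra O K] [IsFractionRing O K] [CharZero (RF O)]

private theorem CrC_Psi_mono {R : Type*} [Field R] [Infinite R] (φ : Fin n → MvPolynomial (Fin n) R)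
    (μ : ℕ) {c c' : ℕ} (h : c ≤ c') {F : MvPolynomial (Fin n) R} (hF : Psi φ μ c F ≠ 0) :
    Psi φ μ c' F ≠ 0 := by
  rw [Psi_apply] at hF ⊢
  exact PhiP_mono _ _ h hF

private theorem CrC_mono {φ : Fin n → MvPolynomial (Fin n) O} {μ c c' N N' : ℕ}
    {𝓓 𝓓' : Set (MvPolynomial (Fin n) K)}
    (h : H1c φ μ c 𝓓 N) (hc : c ≤ c') (hD : 𝓓' ⊆ 𝓓) (hN : N' ≤ N) : H1c φ μ c' 𝓓' N' :=
  fun M hM a ha J hdet =>
    Pres_mono (fun _ hf => CrC_Psi_mono _ μ hc hf) (h M (hM.trans hN) a (fun i => hD (ha i)) J hdet)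

private theorem CrC_aux (φ : Fin n → MvPolynomial (Fin n) O) (u : O) (hu : IsUnit u)
    (hφ : (Matrix.of fun i j => pderiv i (φ j)).det = C u) (μ : ℕ)
    (hμ : LinearIndependent (RF O) (cvx (RF O) n μ)) {κ w k Δ : ℕ} {β : ℕ → Option (Fin n → ℕ)}
    {𝓛 : Set (MvPolynomial (Fin n) K)} (h : H1c φ μ 2 (Dc 𝓛 (3 * Δ)) (szK κ k w Δ)) :
    ∀ j i, i + j = Δ → H1c φ μ (2 + ∑ t ∈ Finset.Ico i Δ, costK κ k w t)
      (Dc (Cs κ w β 𝓛 j) (3 * i)) (szK κ k w i) := by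
  intro j
  induction j with
  | zero =>
    intro i hi
    obtain rfl : i = Δ := by omega
    rw [Finset.Ico_self, Finset.sum_empty, Cs_zero]
    exact h
  | succ j ih =>
    intro i hi
    have h1 := ih (i + 1) (by omega)
    have hlt : i < Δ := by omega
    have e1 : 2 + ∑ t ∈ Finset.Ico i Δ, costK κ k w t =
        2 + ∑ t ∈ Finset.Ico (i + 1) Δ, costK κ k w t + costK κ k w i := by
      rw [Finset.sum_eq_sum_Ico_succ_bot hlt]
      ring
    rw [e1]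
    have hsz : szK κ k w (i + 1) = rowsG κ (szK κ k w i) (3 * i) + rowsB w (szK κ k w i) := rfl
    rw [hsz] at h1
    rcases hβ : β j with _ | blk
    · have h2 := gate_H1C (κ := κ) (m := 3 * i) (N := szK κ k w i) φ u hu hφ μ hμ
        (CrC_mono h1 le_rfl (Dc_mono subset_rfl (by omega)) (Nat.le_add_right _ _))
      exact CrC_mono h2 (Nat.add_le_add_left (Nat.le_add_right _ _) _)
        (Dc_mono (Cs_gate hβ) le_rfl) le_rfl
    · have h2 := abp_H1C (w := w) (blk := blk) (m := 3 * i) (M₀ := szK κ k w i) φ u hu hφ μ hμ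
        (CrC_mono h1 le_rfl (Dc_mono subset_rfl (by omega)) (Nat.le_add_left _ _))
      exact CrC_mono h2 (Nat.add_le_add_left (Nat.le_add_left _ _) _)
        (Dc_mono (Cs_abp hβ) le_rfl) le_rfl

/- PLAN. Copy of `CWA.circ_H1_aux` and `CWA.circ_hit` (CWA/CircH.lean): `CLO.gate_H1C`, `abp_H1C`,
`CLO.border_faith`; monotonicity of `H1c` (`Pres_mono` and `PhiP_mono`; compare `CWA.H1P_mono`). -/
theorem circ_hitC (φ : Fin n → MvPolynomial (Fin n) O) (u : O) (hu : IsUnit u)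
    (hφ : (Matrix.of fun i j => pderiv i (φ j)).det = C u) (μ : ℕ)
    (hμ : LinearIndependent (RF O) (cvx (RF O) n μ)) {κ w k Δ : ℕ} {β : ℕ → Option (Fin n → ℕ)}
    {𝓛 : Set (MvPolynomial (Fin n) K)} (h : H1c φ μ 2 (Dc 𝓛 (3 * Δ)) (szK κ k w Δ)) {N : ℕ}
    (T : Fin N → MvPolynomial (Fin n) K) (hT : ∀ i, Circ κ w β (fun g => g ∈ 𝓛) Δ (T i))
    (htr : ∀ b : Finset (Fin N), AlgebraicIndepOn K T (b : Set (Fin N)) → b.card ≤ k)
    (g : MvPolynomial (Fin n) K) (hg : IsAlgebraic (Algebra.adjoin K (Set.range T)) g) :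
    Pres O (Psi (fun j => rd O (φ j)) μ (2 + EtotK κ k w Δ)) g := by
  have h1 := CrC_aux (β := β) φ u hu hφ μ hμ h Δ 0 (by omega)
  rw [← Finset.range_eq_Ico] at h1
  unfold EtotK
  rw [← add_assoc]
  refine border_faith φ u hu hφ μ _ hμ k T htr ?_ g hg
  intro M hM e J hdet
  exact h1 M hM _ (fun i => ⟨[], Nat.zero_le _, T (e i), hT _, rfl⟩) J hdet

end Pool.Agent.CLK
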