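import Pool.Agent.CLO.Def2
import Pool.Agent.CWA.HH
import Pool.Agent.CWR.RA
import Pool.Agent.CWR.AbpH

/-!
# Project CLK (MP_e2be99_lc): limits of orbits of bounded-depth formulas with gates of bounded
occurrence and read-once program gates of bounded width

Everything is over a valuation ring `O` with fraction field `K` and residue field `RF O`; `Pres`, `H1c`,
`rd`, `Leaf` are those of `Pool.Agent.CLO`, `Circ`, `RA`, `Abp`, `iprod`, `EE`, `wd`, `rowsA`, `rowsG` those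
of `Pool.Agent.CWR`, `Cov`, `LCov` those of `Pool.Agent.CWA`.
-/

set_option autoImplicit false

namespace Pool.Agent.CLK

open MvPolynomial Pool.Agent.ORB Pool.Agent.ORG Pool.Agent.ORA Pool.Agent.CWR Pool.Agent.CLO

section res

variable {n : ℕ} (O : Type*) [CommRing O] [IsDomain O] [ValuationRing O] {K : Type*} [Field K]
  [Algebra O K]

/-- The reductions of the polynomials over `O` which are in `𝒜` over `K`. -/
def resA (𝒜 : Subalgebra K (MvPolynomial (Fin n) K)) :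
    Subalgebra (RF O) (MvPolynomial (Fin n) (RF O)) where
  carrier := {g | ∃ f : MvPolynomial (Fin n) O, MvPolynomial.map (algebraMap O K) f ∈ 𝒜 ∧
    rd O f = g}
  mul_mem' := by
    rintro _ _ ⟨f, hf, rfl⟩ ⟨g, hg, rfl⟩
    exact ⟨f * g, by rw [map_mul]; exact 𝒜.mul_mem hf hg, by rw [map_mul]⟩
  add_mem' := by
    rintro _ _ ⟨f, hf, rfl⟩ ⟨g, hg, rfl⟩
    exact ⟨f + g, by rw [map_add]; exact 𝒜.add_mem hf hg, by rw [map_add]⟩
  algebraMap_mem' := by
    intro y
    obtain ⟨o, rfl⟩ := IsLocalRing.residue_surjective y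
    refine ⟨C o, ?_, ?_⟩
    · rw [map_C]
      exact 𝒜.algebraMap_mem _
    · rw [map_C, algebraMap_eq]

variable {O}

theorem mem_resA {𝒜 : Subalgebra K (MvPolynomial (Fin n) K)} {g : MvPolynomial (Fin n) (RF O)} :
    g ∈ resA O 𝒜 ↔ ∃ f : MvPolynomial (Fin n) O, MvPolynomial.map (algebraMap O K) f ∈ 𝒜 ∧
      rd O f = g := Iff.rfl

end res

section numbers

/-- `N (N + 1)`, `N = (W² + 1) (M w)²`, `W = M! (w+1)^M` -/
def rowsB (w M : ℕ) : ℕ := rowsA w M * (rowsA w M + 1)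

/-- `m_0 = k`, `m_(j+1) = rowsG κ m_j (3 j) + rowsB w m_j` -/
def szK (κ k w : ℕ) : ℕ → ℕ
  | 0 => k
  | j + 1 => rowsG κ (szK κ k w j) (3 * j) + rowsB w (szK κ k w j)

/-- the number of seeds for one level -/
def costK (κ k w j : ℕ) : ℕ :=
  rowsG κ (szK κ k w j) (3 * j) +
    (rowsB w (szK κ k w j) + EE (wd w (szK κ k w j)) (2 * (szK κ k w j * w) ^ 2))

/-- the total number of seeds -/
def EtotK (κ k w Δ : ℕ) : ℕ := ∑ j ∈ Finset.range Δ, costK κ k w j + k

/-- `μ = m (e + 1) d` -/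
def muL (m e d : ℕ) : ℕ := m * ((e + 1) * d)

/-- `(n+1)^(e+1) s (d+1) (μ+1)^c` -/
def rowL (n m c s d e : ℕ) : ℕ := (n + 1) ^ (e + 1) * s * ((d + 1) * (muL m e d + 1) ^ c)

/-- `n ((μ+1) (rowL^((e+1) m) + s + (d+1) (μ+1)^c) + 2)²` -/
def ordL (n m c s d e : ℕ) : ℕ :=
  n * ((muL m e d + 1) * rowL n m c s d e ^ ((e + 1) * m) +
    (muL m e d + 1) * (s + (d + 1) * (muL m e d + 1) ^ c) + 2) ^ 2

/-- the order of the curves -/
def ordK (n κ k w c s d Δ : ℕ) : ℕ := ordL n (szK κ k w Δ) c s d (3 * Δ)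

end numbers

end Pool.Agent.CLK
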