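import Pool.Agent.CLK.LfG
import Pool.Agent.CLK.CrC
import Pool.Agent.CLO.Fin

/-!
# CLK: main theorem
-/

set_option autoImplicit false

namespace Pool.Agent.CLK

open MvPolynomial Pool.Agent.ORB Pool.Agent.ORG Pool.Agent.ORA Pool.Agent.CWR Pool.Agent.CLO

/-- `P` is the image, under a local homomorphism `O → F`, of `h(φ(x))`, `O` a valuation ring, `φ` a
polynomial map over `O` whose Jacobian determinant is a unit of `O`, `h` a polynomial over `O` which is
algebraic over `K(T_1, ..., T_N)`, `K` the fraction field of `O`; the `T_i` are formulas of depth `Δ` over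
the leaves of a frame, with gates of occurrence `κ` or, at the levels `j` with `β j = some blk`, read-once
programs of width at most `w` with the layers `blk`; at most `k` of the `T_i` are algebraically
independent. -/
def LimitCirc.{u, v, x} (n κ k w c s d Δ : ℕ) {F : Type x} [Field F]
    (P : MvPolynomial (Fin n) F) : Prop :=
  ∃ (O : Type u) (_ : CommRing O) (_ : IsDomain O) (_ : ValuationRing O) (K : Type v) (_ : Field K)
    (_ : Algebra O K) (_ : IsFractionRing O K) (res : O →+* F) (_ : IsLocalHom res)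
    (φ : Fin n → MvPolynomial (Fin n) O) (u : O)
    (a : Matrix (Fin n) (Fin n) (MvPolynomial (Fin n) O)) (β : ℕ → Option (Fin n → ℕ)) (N : ℕ)
    (T : Fin N → MvPolynomial (Fin n) K) (h : MvPolynomial (Fin n) O),
    IsUnit u ∧ (Matrix.of fun i j => pderiv i (φ j)).det = C u ∧
    (∀ j i, (a j i).totalDegree ≤ 1) ∧ IsFrame (a.map (MvPolynomial.map (IsLocalRing.residue O))) s ∧
    (∀ i, Circ κ w β (Leaf (a.map (MvPolynomial.map (algebraMap O K))) c s d) Δ (T i)) ∧
    (∀ b : Finset (Fin N), AlgebraicIndepOn K T (b : Set (Fin N)) → b.card ≤ k) ∧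
    IsAlgebraic (Algebra.adjoin K (Set.range T)) (MvPolynomial.map (algebraMap O K) h) ∧
    P = MvPolynomial.map res (aeval φ h)

variable {n : ℕ}

theorem ordK_ge (n κ k w c s d Δ : ℕ) : n * 2 ^ 2 ≤ ordK n κ k w c s d Δ := by
  unfold ordK ordL
  exact Nat.mul_le_mul_left _ (Nat.pow_le_pow_left (by omega) _)

theorem core {O : Type*} [CommRing O] [IsDomain O] [ValuationRing O]
    {K : Type*} [Field K] [Algebra O K] [IsFractionRing O K] [CharZero (RF O)]
    (κ k w c s d Δ : ℕ) (φ : Fin n → MvPolynomial (Fin n) O) (u : O) (hu : IsUnit u)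
    (hφ : (Matrix.of fun i j => pderiv i (φ j)).det = C u)
    (a : Matrix (Fin n) (Fin n) (MvPolynomial (Fin n) O)) (ha1 : ∀ j i, (a j i).totalDegree ≤ 1)
    (ha : IsFrame (a.map (rd O)) s) (β : ℕ → Option (Fin n → ℕ)) {N : ℕ}
    (T : Fin N → MvPolynomial (Fin n) K)
    (hT : ∀ i, Circ κ w β (Leaf (a.map (MvPolynomial.map (algebraMap O K))) c s d) Δ (T i))
    (htr : ∀ b : Finset (Fin N), AlgebraicIndepOn K T (b : Set (Fin N)) → b.card ≤ k)
    (h : MvPolynomial (Fin n) O)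
    (halg : IsAlgebraic (Algebra.adjoin K (Set.range T)) (MvPolynomial.map (algebraMap O K) h))
    (h0 : rd O (aeval φ h) ≠ 0) :
    PhiP (cvx (RF O) n (ordK n κ k w c s d Δ)) (fun _ => (0 : MvPolynomial (Fin 0) (RF O)))
      (2 + EtotK κ k w Δ) (rd O (aeval φ h)) ≠ 0 := by
  have h1 : rd O (aeval φ h) = aeval (fun j => rd O (φ j)) (rd O h) := map_aeval _ φ h
  have h2 : rd O h ≠ 0 := by
    intro h3
    apply h0
    rw [h1, h3, map_zero]
  have h3 := circ_hitC (K := K) φ u hu hφ _ (linearIndependent_cvx _ (ordK_ge n κ k w c s d Δ))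
    (𝓛 := {g | Leaf (a.map (MvPolynomial.map (algebraMap O K))) c s d g})
    (leaf_H1L φ u hu hφ (szK κ k w Δ) c s d (3 * Δ) a ha1 ha) T hT htr
    (MvPolynomial.map (algebraMap O K) h) halg h 1 one_ne_zero (one_smul _ _).symm h2
  rw [h1]
  exact h3

theorem limit_hit.{u, v, x} (κ k w c s d Δ : ℕ) {F : Type x} [Field F] [CharZero F]
    (P : MvPolynomial (Fin n) F) (hP : LimitCirc.{u, v, x} n κ k w c s d Δ P) (hP0 : P ≠ 0) :
    PhiP (cvx F n (ordK n κ k w c s d Δ)) (fun _ => (0 : MvPolynomial (Fin 0) F))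
      (2 + EtotK κ k w Δ) P ≠ 0 := by
  obtain ⟨O, _, _, _, K, _, _, _, res, _, φ, u, a, β, N, T, h, hu, hφ, ha1, ha, hT, htr, halg,
    rfl⟩ := hP
  have hres : (IsLocalRing.ResidueField.lift res).comp (IsLocalRing.residue O) = res :=
    RingHom.ext fun x => IsLocalRing.ResidueField.lift_residue_apply res x
  have : CharZero (RF O) := (IsLocalRing.ResidueField.lift res).charZero
  have h1 : MvPolynomial.map res (aeval φ h) =
      MvPolynomial.map (IsLocalRing.ResidueField.lift res) (rd O (aeval φ h)) := by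
    rw [MvPolynomial.map_map, hres]
  rw [h1] at hP0 ⊢
  refine PhiP_map _ _ _ _ (core (K := K) κ k w c s d Δ φ u hu hφ a ha1 ha β T hT htr h halg ?_)
  intro h2
  apply hP0
  rw [h2, map_zero]

/-- `R = D (M + 1)` -/
def radK (n κ k w c s d Δ D : ℕ) : ℕ := D * (ordK n κ k w c s d Δ + 1)

/-- The hitting set: the points `x_i = ∑_{l<E} z_l A_i(w_l)`, `E = 2 + EtotK κ k w Δ`,
`z_l, w_l ∈ {0, ..., R}`. -/
def hitK (n κ k w c s d Δ D : ℕ) : Finset (Fin n → ℕ) :=
  hitSet n (ordK n κ k w c s d Δ) (2 + EtotK κ k w Δ) (radK n κ k w c s d Δ D)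

theorem main_hit.{u, v, x} (κ k w c s d Δ D m : ℕ) {F : Type x} [Field F] [CharZero F]
    (P : Fin m → MvPolynomial (Fin n) F)
    (hP : ∀ j, P j ≠ 0 ∧ LimitCirc.{u, v, x} n κ k w c s d Δ (P j)) (g : MvPolynomial (Fin n) F)
    (hg : g ∣ ∏ j, P j) (hD : g.totalDegree ≤ D) :
    ∃ y ∈ hitK n κ k w c s d Δ D, eval (fun i => (y i : F)) g ≠ 0 := by
  refine exists_mem_hitSet _ _ D g hD ?_
  intro h0
  obtain ⟨q, hq⟩ := hg
  have h1 := congrArg (PhiP (cvx F n (ordK n κ k w c s d Δ)) (fun _ => (0 : MvPolynomial (Fin 0) F))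
    (2 + EtotK κ k w Δ)) hq
  rw [map_mul, h0, zero_mul, map_prod, Finset.prod_eq_zero_iff] at h1
  obtain ⟨j, -, hj⟩ := h1
  exact limit_hit κ k w c s d Δ (P j) (hP j).2 (hP j).1 hj

end Pool.Agent.CLK
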