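import Pool.Agent.SPE.Nrm
import Pool.Agent.CLO.Defs

/-!
# CLK: unimodular bases of spaces of polynomials
-/

set_option autoImplicit false

namespace Pool.Agent.CLK

open MvPolynomial Pool.Agent.CLO

variable {n : ℕ} {O : Type*} [CommRing O] [IsDomain O] [ValuationRing O] {K : Type*} [Field K]
  [Algebra O K] [IsFractionRing O K]

/- PLAN. Induction on `w` (generalising `W`).  If `W = ⊥` take `b = 0`.  Otherwise take `g0 ∈ W`, `g0 ≠ 0`,
`SPE.normalise g0`: `b0` over `O` with `map b0 = y • g0 ∈ W` and `coeff ν0 b0 = 1`.
`W' = {g ∈ W | coeff ν0 g = 0}` has smaller dimension (it does not contain `g0`): `finrank W' ≤ w - 1`;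
`b', ν'` for `W'`.  Put `b (last) = b0 - ∑ j, C (coeff (ν' j) b0) * b' j`, `ν (last) = ν0`, and `b'`, `ν'`
for the others (`Fin.snoc` or `Fin.cons`): `coeff ν0 (b' j) = 0` because `map (b' j) ∈ W'` and
`algebraMap O K` is injective.  For `g ∈ W`: `g - coeff ν0 g • map b0 ∈ W'`. -/
theorem exists_echelon (w : ℕ) (W : Submodule K (MvPolynomial (Fin n) K))
    (hfd : FiniteDimensional K W) (hw : Module.finrank K W ≤ w) :
    ∃ (b : Fin w → MvPolynomial (Fin n) O) (ν : Fin w → (Fin n →₀ ℕ)),
      (∀ j, MvPolynomial.map (algebraMap O K) (b j) ∈ W) ∧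
      (∀ g ∈ W, g = ∑ j, coeff (ν j) g • MvPolynomial.map (algebraMap O K) (b j)) ∧
      ∀ i j, b i ≠ 0 → coeff (ν i) (b j) = if i = j then 1 else 0 := by
  classical
  have hinj : Function.Injective (algebraMap O K) := IsFractionRing.injective O K
  induction w generalizing W with
  | zero =>
    have h0 : Module.finrank K W = 0 := Nat.le_zero.1 hw
    have hbot : W = ⊥ := Submodule.finrank_eq_zero.1 h0
    refine ⟨fun i => i.elim0, fun i => i.elim0, fun i => i.elim0, ?_, fun i => i.elim0⟩
    intro g hg
    rw [hbot, Submodule.mem_bot] at hg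
    rw [hg]
    simp
  | succ w ih =>
    by_cases hbot : W = ⊥
    · refine ⟨fun _ => 0, fun _ => 0, fun _ => ?_, ?_, fun i _ h => absurd rfl h⟩
      · rw [map_zero]
        exact W.zero_mem
      · intro g hg
        rw [hbot, Submodule.mem_bot] at hg
        rw [hg]
        simp
    · obtain ⟨g0, hg0W, hg0⟩ := Submodule.exists_mem_ne_zero_of_ne_bot hbot
      obtain ⟨y, b0, -, hb0, ν0, hν0⟩ := Pool.Agent.SPE.normalise (O := O) (K := K) g0 hg0
      have hb0W : MvPolynomial.map (algebraMap O K) b0 ∈ W := by
        rw [hb0]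
        exact W.smul_mem y hg0W
      have hc0 : coeff ν0 (MvPolynomial.map (algebraMap O K) b0) = 1 := by
        rw [coeff_map, hν0, map_one]
      have hc0' : y * coeff ν0 g0 = 1 := by
        rw [← hc0, hb0, coeff_smul, smul_eq_mul]
      set W' : Submodule K (MvPolynomial (Fin n) K) := W ⊓ LinearMap.ker (lcoeff K ν0) with hW'
      have hmem : ∀ g, g ∈ W' ↔ g ∈ W ∧ coeff ν0 g = 0 := by
        intro g
        rw [hW', Submodule.mem_inf, LinearMap.mem_ker]
        rfl
      have hlt : W' < W := by
        refine lt_of_le_of_ne inf_le_left ?_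
        intro h
        have h1 : g0 ∈ W' := h ▸ hg0W
        have h2 := ((hmem g0).1 h1).2
        rw [h2, mul_zero] at hc0'
        exact zero_ne_one hc0'
      have hfd' : FiniteDimensional K W' := Submodule.finiteDimensional_of_le hlt.le
      have hfr : Module.finrank K W' ≤ w := by
        have h1 := Submodule.finrank_lt_finrank_of_lt hlt
        omega
      obtain ⟨b', ν', h1, h2, h3⟩ := ih W' hfd' hfr
      have h1W : ∀ j, MvPolynomial.map (algebraMap O K) (b' j) ∈ W := fun j =>
        ((hmem _).1 (h1 j)).1
      have h10 : ∀ j, coeff ν0 (b' j) = 0 := by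
        intro j
        have h4 := ((hmem _).1 (h1 j)).2
        rw [coeff_map] at h4
        exact (map_eq_zero_iff _ hinj).1 h4
      set bl : MvPolynomial (Fin n) O := b0 - ∑ j, C (coeff (ν' j) b0) * b' j with hbl
      have hmbl : MvPolynomial.map (algebraMap O K) bl = MvPolynomial.map (algebraMap O K) b0 -
          ∑ j, coeff (ν' j) (MvPolynomial.map (algebraMap O K) b0) •
            MvPolynomial.map (algebraMap O K) (b' j) := by
        rw [hbl, map_sub, map_sum]
        congr 1
        refine Finset.sum_congr rfl fun j _ => ?_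
        rw [map_mul, map_C, coeff_map, smul_eq_C_mul]
      refine ⟨Fin.snoc (α := fun _ => MvPolynomial (Fin n) O) b' bl,
        Fin.snoc (α := fun _ => (Fin n →₀ ℕ)) ν' ν0, ?_, ?_, ?_⟩
      · intro j
        refine Fin.lastCases ?_ (fun j => ?_) j
        · rw [Fin.snoc_last, hmbl]
          exact W.sub_mem hb0W (W.sum_mem fun j _ => W.smul_mem _ (h1W j))
        · rw [Fin.snoc_castSucc]
          exact h1W j
      · intro g hg
        rw [Fin.sum_univ_castSucc, Fin.snoc_last, Fin.snoc_last]
        simp only [Fin.snoc_castSucc]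
        have h4 : g - coeff ν0 g • MvPolynomial.map (algebraMap O K) b0 ∈ W' := by
          rw [hmem]
          refine ⟨W.sub_mem hg (W.smul_mem _ hb0W), ?_⟩
          rw [coeff_sub, coeff_smul, hc0, smul_eq_mul, mul_one, sub_self]
        have h5 := h2 _ h4
        have h6 : ∑ j, coeff (ν' j) (g - coeff ν0 g • MvPolynomial.map (algebraMap O K) b0) •
            MvPolynomial.map (algebraMap O K) (b' j) =
            ∑ j, coeff (ν' j) g • MvPolynomial.map (algebraMap O K) (b' j) -
            coeff ν0 g • ∑ j, coeff (ν' j) (MvPolynomial.map (algebraMap O K) b0) •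
              MvPolynomial.map (algebraMap O K) (b' j) := by
          rw [Finset.smul_sum, ← Finset.sum_sub_distrib]
          refine Finset.sum_congr rfl fun j _ => ?_
          rw [coeff_sub, coeff_smul, smul_eq_mul, sub_smul, mul_smul]
        rw [h6] at h5
        rw [hmbl, smul_sub]
        have h7 := sub_eq_iff_eq_add.1 h5
        rw [h7]
        have h8 : ∀ (a b c : MvPolynomial (Fin n) K), a - b + c = a + (c - b) := fun a b c => by
          ring
        conv_lhs => rw [h8]
        rw [← h7]
      · intro i j
        refine Fin.lastCases ?_ (fun i => ?_) i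
        · intro _
          refine Fin.lastCases ?_ (fun j => ?_) j
          · rw [Fin.snoc_last, Fin.snoc_last, if_pos rfl, hbl, coeff_sub, coeff_sum, hν0]
            have h4 : ∑ j, coeff ν0 (C (coeff (ν' j) b0) * b' j) = 0 := by
              refine Finset.sum_eq_zero fun j _ => ?_
              rw [coeff_C_mul, h10, mul_zero]
            rw [h4, sub_zero]
          · rw [Fin.snoc_last, Fin.snoc_castSucc, h10, if_neg (Fin.castSucc_lt_last j).ne']
        · rw [Fin.snoc_castSucc]
          intro hi
          refine Fin.lastCases ?_ (fun j => ?_) j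
          · rw [Fin.snoc_castSucc, Fin.snoc_last, if_neg (Fin.castSucc_lt_last i).ne, hbl,
              coeff_sub, coeff_sum]
            have h4 : ∑ j, coeff (ν' i) (C (coeff (ν' j) b0) * b' j) = coeff (ν' i) b0 := by
              rw [Finset.sum_eq_single i]
              · rw [coeff_C_mul, h3 i i hi, if_pos rfl, mul_one]
              · intro j _ hji
                rw [coeff_C_mul, h3 i j hi, if_neg hji.symm, mul_zero]
              · intro h
                exact absurd (Finset.mem_univ i) h
            rw [h4, sub_self]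
          · rw [Fin.snoc_castSucc, Fin.snoc_castSucc, h3 i j hi]
            by_cases hij : i = j
            · rw [if_pos hij, if_pos (by rw [hij])]
            · rw [if_neg hij, if_neg (fun h => hij (Fin.castSucc_injective _ h))]

end Pool.Agent.CLK
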