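import Pool.Agent.CLO.Defs

/-!
# CLK: one step of a program over the valuation ring
-/

set_option autoImplicit false

namespace Pool.Agent.CLK

open MvPolynomial Pool.Agent.CLO

variable {n : ℕ} {O : Type*} [CommRing O] [IsDomain O] [ValuationRing O] {K : Type*} [Field K]
  [Algebra O K] [IsFractionRing O K]

/- One step of a program over the valuation ring. -/
private theorem gp_supp [CharZero K] {g : MvPolynomial (Fin n) K} {v : Fin n} (h : pderiv v g = 0)
    {m : Fin n →₀ ℕ} (hm : coeff m g ≠ 0) : m v = 0 := by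
  by_contra hv
  have h1 : Finsupp.single v 1 ≤ m := by
    rw [Finsupp.single_le_iff]
    omega
  have h2 := congrArg (coeff (m - Finsupp.single v 1)) h
  rw [coeff_pderiv, coeff_zero, tsub_add_cancel_of_le h1] at h2
  rcases mul_eq_zero.1 h2 with h3 | h3
  · exact hm h3
  · norm_cast at h3

private theorem gp_coeff {P : Fin n → Prop} {p x : MvPolynomial (Fin n) K}
    (hp : ∀ m, coeff m p ≠ 0 → ∀ v, ¬ P v → m v = 0)
    (hx : ∀ m, coeff m x ≠ 0 → ∀ v, P v → m v = 0)
    {μ β : Fin n →₀ ℕ} (hμ : ∀ v, ¬ P v → μ v = 0) (hβ : ∀ v, P v → β v = 0) :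
    coeff (μ + β) (p * x) = coeff μ p * coeff β x := by
  classical
  rw [coeff_mul]
  refine Finset.sum_eq_single (μ, β) ?_ ?_
  · rintro ⟨a, b⟩ hab hne
    rw [Finset.HasAntidiagonal.mem_antidiagonal] at hab
    dsimp only at hab ⊢
    by_contra h0
    have ha := hp a (left_ne_zero_of_mul h0)
    have hb := hx b (right_ne_zero_of_mul h0)
    apply hne
    have key : ∀ v, a v = μ v ∧ b v = β v := by
      intro v
      have hv := DFunLike.congr_fun hab v
      rw [Finsupp.add_apply, Finsupp.add_apply] at hv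
      by_cases hP : P v
      · have h1 := hb v hP
        have h2 := hβ v hP
        omega
      · have h1 := ha v hP
        have h2 := hμ v hP
        omega
    rw [Prod.mk.injEq]
    exact ⟨Finsupp.ext fun v => (key v).1, Finsupp.ext fun v => (key v).2⟩
  · intro h
    exfalso
    apply h
    rw [Finset.HasAntidiagonal.mem_antidiagonal]

theorem exists_coef [CharZero K] {blk : Fin n → ℕ} {l w t : ℕ}
    (W : Submodule K (MvPolynomial (Fin n) K))
    (hWv : ∀ g ∈ W, ∀ v, l ≤ blk v → pderiv v g = 0) (𝒜 : Subalgebra K (MvPolynomial (Fin n) K))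
    (h𝒜 : ∀ x ∈ 𝒜, ∀ v, blk v ≠ l → pderiv v x = 0)
    (b : Fin w → MvPolynomial (Fin n) O) (ν : Fin w → (Fin n →₀ ℕ))
    (hbW : ∀ j, MvPolynomial.map (algebraMap O K) (b j) ∈ W)
    (hb : ∀ g ∈ W, g = ∑ j, coeff (ν j) g • MvPolynomial.map (algebraMap O K) (b j))
    (hν : ∀ i j, b i ≠ 0 → coeff (ν i) (b j) = if i = j then 1 else 0)
    (g : MvPolynomial (Fin n) O) (R a : Fin t → MvPolynomial (Fin n) K) (hR : ∀ j, R j ∈ W)
    (ha : ∀ j, a j ∈ 𝒜) (hg : MvPolynomial.map (algebraMap O K) g = ∑ j, R j * a j) :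
    ∃ c : Fin w → MvPolynomial (Fin n) O,
      (∀ k, MvPolynomial.map (algebraMap O K) (c k) ∈ 𝒜) ∧ g = ∑ k, b k * c k := by
  classical
  set f : O →+* K := algebraMap O K with hf
  have hinj : Function.Injective f := IsFractionRing.injective O K
  have hWs : ∀ p ∈ W, ∀ m, coeff m p ≠ 0 → ∀ v, ¬ blk v < l → m v = 0 := by
    intro p hp m hm v hv
    exact gp_supp (hWv p hp v (not_lt.1 hv)) hm
  have hAs : ∀ x ∈ 𝒜, ∀ m, coeff m x ≠ 0 → ∀ v, blk v ≠ l → m v = 0 := by
    intro x hx m hm v hv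
    exact gp_supp (h𝒜 x hx v hv) hm
  obtain ⟨a', ha'⟩ : ∃ a' : Fin w → MvPolynomial (Fin n) K,
      a' = fun k => ∑ j, coeff (ν k) (R j) • a j := ⟨_, rfl⟩
  have ha'A : ∀ k, a' k ∈ 𝒜 := by
    intro k
    rw [ha']
    exact 𝒜.sum_mem fun j _ => 𝒜.smul_mem (ha j) _
  have hmap : MvPolynomial.map f g = ∑ k, MvPolynomial.map f (b k) * a' k := by
    rw [hg]
    have h1 : ∀ j, R j * a j = ∑ k, MvPolynomial.map f (b k) * (coeff (ν k) (R j) • a j) := by
      intro j
      conv_lhs => rw [hb (R j) (hR j)]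
      rw [Finset.sum_mul]
      refine Finset.sum_congr rfl fun k _ => ?_
      rw [smul_mul_assoc, mul_smul_comm]
    rw [Finset.sum_congr rfl fun j _ => h1 j, Finset.sum_comm]
    refine Finset.sum_congr rfl fun k _ => ?_
    rw [← Finset.mul_sum, ha']
  -- the coefficients of a' k
  have hco : ∀ k, b k ≠ 0 → ∀ β : Fin n →₀ ℕ, coeff β (a' k) ≠ 0 →
      coeff β (a' k) = f (coeff (ν k + β) g) := by
    intro k hk β hβ0
    have hβ := hAs (a' k) (ha'A k) β hβ0
    have hν1 : coeff (ν k) (MvPolynomial.map f (b k)) ≠ 0 := by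
      rw [coeff_map, hν k k hk, if_pos rfl, map_one]
      exact one_ne_zero
    have hνk := hWs _ (hbW k) (ν k) hν1
    have h1 : f (coeff (ν k + β) g) = coeff (ν k + β) (MvPolynomial.map f g) := by
      rw [coeff_map]
    rw [h1, hmap, coeff_sum]
    have h2 : ∀ k', coeff (ν k + β) (MvPolynomial.map f (b k') * a' k') =
        coeff (ν k) (MvPolynomial.map f (b k')) * coeff β (a' k') := by
      intro k'
      refine gp_coeff (P := fun v => blk v < l) (hWs _ (hbW k')) ?_ hνk ?_
      · intro m hm v hv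
        exact hAs _ (ha'A k') m hm v (ne_of_lt hv)
      · intro v hv
        exact hβ v (ne_of_lt hv)
    rw [Finset.sum_congr rfl fun k' _ => h2 k']
    rw [Finset.sum_eq_single k]
    · rw [coeff_map, hν k k hk, if_pos rfl, map_one, one_mul]
    · intro k' _ hne
      rw [coeff_map, hν k k' hk, if_neg (Ne.symm hne), map_zero, zero_mul]
    · intro h
      exact absurd (Finset.mem_univ k) h
  set c : Fin w → MvPolynomial (Fin n) O := fun k =>
    if b k = 0 then 0 else ∑ β ∈ (a' k).support, monomial β (coeff (ν k + β) g) with hc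
  have hcm : ∀ k, b k ≠ 0 → MvPolynomial.map f (c k) = a' k := by
    intro k hk
    have h1 : c k = ∑ β ∈ (a' k).support, monomial β (coeff (ν k + β) g) := if_neg hk
    rw [h1, map_sum]
    conv_rhs => rw [← support_sum_monomial_coeff (a' k)]
    refine Finset.sum_congr rfl fun β hβ => ?_
    rw [map_monomial, hco k hk β (mem_support_iff.1 hβ)]
  refine ⟨c, ?_, ?_⟩
  · intro k
    by_cases hk : b k = 0
    · have h1 : c k = 0 := if_pos hk
      rw [h1, map_zero]
      exact 𝒜.zero_mem
    · rw [hcm k hk]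
      exact ha'A k
  · apply map_injective f hinj
    rw [hmap, map_sum]
    refine Finset.sum_congr rfl fun k _ => ?_
    rw [map_mul]
    by_cases hk : b k = 0
    · rw [hk, map_zero, zero_mul, zero_mul]
    · rw [hcm k hk]

end Pool.Agent.CLK
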