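import Pool.Agent.CLK.Defs
import Pool.Agent.CLK.GaE
import Pool.Agent.CLK.GaP

/-!
# CLK: Gauss lemma for programs
-/

set_option autoImplicit false

namespace Pool.Agent.CLK

open MvPolynomial Pool.Agent.CWR Pool.Agent.CLO

variable {n : ℕ} {O : Type*} [CommRing O] [IsDomain O] [ValuationRing O] {K : Type*} [Field K]
  [Algebra O K] [IsFractionRing O K]

/-- the row vector `u^T M_0 ... M_(l-1)` -/
private noncomputable def gaR_R {F : Type*} [Field F] {w : ℕ}
    (M : ℕ → Matrix (Fin w) (Fin w) (MvPolynomial (Fin n) F)) (u : Fin w → MvPolynomial (Fin n) F)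
    (l : ℕ) (j : Fin w) : MvPolynomial (Fin n) F :=
  ∑ i, u i * iprod M 0 l i j

private theorem gaR_R_zero {F : Type*} [Field F] {w : ℕ}
    (M : ℕ → Matrix (Fin w) (Fin w) (MvPolynomial (Fin n) F)) (u : Fin w → MvPolynomial (Fin n) F)
    (j : Fin w) : gaR_R M u 0 j = u j := by
  unfold gaR_R
  rw [iprod_self, Finset.sum_eq_single j]
  · rw [Matrix.one_apply_eq, mul_one]
  · intro i _ hi
    rw [Matrix.one_apply_ne hi, mul_zero]
  · intro h
    exact absurd (Finset.mem_univ j) h

private theorem gaR_R_succ {F : Type*} [Field F] {w : ℕ}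
    (M : ℕ → Matrix (Fin w) (Fin w) (MvPolynomial (Fin n) F)) (u : Fin w → MvPolynomial (Fin n) F)
    (l : ℕ) (j : Fin w) : gaR_R M u (l + 1) j = ∑ k, gaR_R M u l k * M l k j := by
  unfold gaR_R
  have h1 : iprod M 0 (l + 1) = iprod M 0 l * M l := by
    rw [← iprod_mul M (Nat.zero_le l) (Nat.le_succ l), iprod_succ]
  rw [h1]
  simp only [Matrix.mul_apply, Finset.mul_sum, Finset.sum_mul]
  rw [Finset.sum_comm]
  refine Finset.sum_congr rfl fun k _ => Finset.sum_congr rfl fun i _ => ?_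
  ring

private theorem gaR_pd {F : Type*} [Field F] {w : ℕ} {blk : Fin n → ℕ}
    (M : ℕ → Matrix (Fin w) (Fin w) (MvPolynomial (Fin n) F)) (u : Fin w → F)
    (hM : ∀ l i j v, blk v ≠ l → pderiv v (M l i j) = 0) (l : ℕ) :
    ∀ v, l ≤ blk v → ∀ j, pderiv v (gaR_R M (fun i => C (u i)) l j) = 0 := by
  induction l with
  | zero =>
    intro v _ j
    rw [gaR_R_zero, pderiv_C]
  | succ l ih =>
    intro v hv j
    rw [gaR_R_succ, map_sum]
    refine Finset.sum_eq_zero fun k _ => ?_
    rw [pderiv_mul, ih v (by omega) k, hM l k j v (by omega), zero_mul, mul_zero, add_zero]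

/- PLAN. `F = ∑ i, ∑ j, C (u i) * iprod M 0 L i j * C (v j)`.  `R l j = ∑ i, C (u i) * iprod M 0 l i j`,
`R (l+1) j = ∑ i, R l i * M l i j` (`iprod_mul`, `iprod_succ`); `W l = span of the R l j`
(`finrank ≤ w`, `finrank_range_le_card`), in the variables of the layers `< l` (`h𝒜`, Leibniz).
`exists_echelon w (W l)`: `b l`, `ν l`.  For every `l, j`: `map (b (l+1) j) ∈ W (l+1)` is
`∑ i, R l i * (∑ j', γ j' • M l i j')`, so `exists_coef` gives column `j` of a matrix `D l` over `O[y]` with
`map (D l i j) ∈ 𝒜 l` and `b (l+1) j = ∑ i, b l i * D l i j`.  Induction: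
`b l j = ∑ i, b 0 i * (product of D 0, ..., D (l-1)) i j`; `b 0 i` is a constant `C (β i)`
(`W 0` consists of constants).  `map G = x • F ∈ W L`, so `G = ∑ j, C (coeff (ν L j) G) * b L j`
(`map_injective`).  Apply `rd O`: `M' l = (D l).map (rd O)`, `u' i = residue (β i)`,
`v' j = residue (coeff (ν L j) G)`; `rd O` commutes with the products of matrices
(`RingHom.mapMatrix`, `map_list_prod`). -/
theorem gauss_RA [CharZero K] {blk : Fin n → ℕ}
    (𝒜 : ℕ → Subalgebra K (MvPolynomial (Fin n) K))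
    (h𝒜 : ∀ l, ∀ x ∈ 𝒜 l, ∀ v, blk v ≠ l → pderiv v x = 0) {L w : ℕ} {F : MvPolynomial (Fin n) K}
    (hF : RA 𝒜 L w F) (G : MvPolynomial (Fin n) O) (x : K)
    (hG : MvPolynomial.map (algebraMap O K) G = x • F) :
    RA (fun l => resA O (𝒜 l)) L w (rd O G) := by
  classical
  obtain ⟨M, u, v, hM, hF⟩ := hF
  have hOinj : Function.Injective (algebraMap O K) := IsFractionRing.injective O K
  obtain ⟨R, hR⟩ : ∃ R : ℕ → Fin w → MvPolynomial (Fin n) K,
      R = gaR_R M (fun i => C (u i)) := ⟨_, rfl⟩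
  have hRs : ∀ l j, R (l + 1) j = ∑ k, R l k * M l k j := by
    intro l j
    rw [hR]
    exact gaR_R_succ M _ l j
  have hRp : ∀ l v, l ≤ blk v → ∀ j, pderiv v (R l j) = 0 := by
    intro l v hv j
    rw [hR]
    exact gaR_pd M u (fun l i j v hv => h𝒜 l _ (hM l i j) v hv) l v hv j
  have hWv : ∀ l, ∀ g ∈ Submodule.span K (Set.range (R l)), ∀ v, l ≤ blk v → pderiv v g = 0 := by
    intro l g hg v hv
    have h1 : Submodule.span K (Set.range (R l)) ≤
        LinearMap.ker ((pderiv v : Derivation K (MvPolynomial (Fin n) K) (MvPolynomial (Fin n) K)) :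
          MvPolynomial (Fin n) K →ₗ[K] MvPolynomial (Fin n) K) := by
      refine Submodule.span_le.2 ?_
      rintro _ ⟨j, rfl⟩
      exact hRp l v hv j
    exact h1 hg
  have hfd : ∀ l, FiniteDimensional K (Submodule.span K (Set.range (R l))) := fun l =>
    FiniteDimensional.span_of_finite K (Set.finite_range _)
  have hrk : ∀ l, Module.finrank K (Submodule.span K (Set.range (R l))) ≤ w := by
    intro l
    have h1 := finrank_range_le_card (R := K) (R l)
    rw [Fintype.card_fin] at h1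
    exact h1
  choose b ν hb1 hb2 hb3 using fun l =>
    exists_echelon (O := O) w (Submodule.span K (Set.range (R l))) (hfd l) (hrk l)
  have hD : ∀ l j, ∃ c : Fin w → MvPolynomial (Fin n) O,
      (∀ k, MvPolynomial.map (algebraMap O K) (c k) ∈ 𝒜 l) ∧ b (l + 1) j = ∑ k, b l k * c k := by
    intro l j
    obtain ⟨γ, hγ⟩ := (Submodule.mem_span_range_iff_exists_fun K).1 (hb1 (l + 1) j)
    refine exists_coef (Submodule.span K (Set.range (R l))) (hWv l) (𝒜 l) (h𝒜 l) (b l) (ν l)
      (hb1 l) (hb2 l) (hb3 l) (b (l + 1) j) (R l) (fun i => ∑ j', γ j' • M l i j')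
      (fun i => Submodule.subset_span ⟨i, rfl⟩)
      (fun i => (𝒜 l).sum_mem fun j' _ => (𝒜 l).smul_mem (hM l i j') _) ?_
    rw [← hγ]
    simp only [hRs, Finset.smul_sum, Finset.mul_sum]
    rw [Finset.sum_comm]
    refine Finset.sum_congr rfl fun k _ => Finset.sum_congr rfl fun j' _ => ?_
    rw [mul_smul_comm]
  choose D hD1 hD2 using hD
  obtain ⟨M', hM'⟩ : ∃ M' : ℕ → Matrix (Fin w) (Fin w) (MvPolynomial (Fin n) (RF O)),
      M' = fun l => Matrix.of fun i j => rd O (D l j i) := ⟨_, rfl⟩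
  have hrdb : ∀ l j, rd O (b l j) = gaR_R M' (fun i => rd O (b 0 i)) l j := by
    intro l
    induction l with
    | zero =>
      intro j
      rw [gaR_R_zero]
    | succ l ih =>
      intro j
      rw [gaR_R_succ, hD2, map_sum]
      refine Finset.sum_congr rfl fun k _ => ?_
      rw [map_mul, ih k, hM']
      rfl
  have hb0 : ∀ i, b 0 i = C (coeff 0 (b 0 i)) := by
    intro i
    apply MvPolynomial.map_injective _ hOinj
    obtain ⟨c, hc⟩ := Pool.Agent.Helper5.D4.eq_C_of_pderiv
      (MvPolynomial.map (algebraMap O K) (b 0 i))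
      (fun v => hWv 0 _ (hb1 0 i) v (Nat.zero_le _))
    rw [map_C, ← coeff_map, hc, coeff_C, if_pos rfl]
  have hGW : MvPolynomial.map (algebraMap O K) G ∈ Submodule.span K (Set.range (R L)) := by
    rw [hG, hF]
    refine Submodule.smul_mem _ _ ?_
    have h1 : ∑ i, ∑ j, C (u i) * iprod M 0 L i j * C (v j) = ∑ j, v j • R L j := by
      rw [Finset.sum_comm]
      refine Finset.sum_congr rfl fun j _ => ?_
      rw [hR, gaR_R, Finset.smul_sum]
      refine Finset.sum_congr rfl fun i _ => ?_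
      rw [smul_eq_C_mul]
      ring
    rw [h1]
    exact Submodule.sum_mem _ fun j _ => Submodule.smul_mem _ _ (Submodule.subset_span ⟨j, rfl⟩)
  have hGe : G = ∑ j, C (coeff (ν L j) G) * b L j := by
    apply MvPolynomial.map_injective _ hOinj
    have h1 := hb2 L _ hGW
    rw [map_sum]
    refine h1.trans (Finset.sum_congr rfl fun j _ => ?_)
    rw [map_mul, map_C, coeff_map, smul_eq_C_mul]
  refine ⟨M', fun i => IsLocalRing.residue O (coeff 0 (b 0 i)),
    fun j => IsLocalRing.residue O (coeff (ν L j) G), ?_, ?_⟩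
  · intro l i j
    rw [hM']
    exact mem_resA.2 ⟨D l j i, hD1 l j i, rfl⟩
  · have h1 : rd O G = ∑ j, C (IsLocalRing.residue O (coeff (ν L j) G)) * rd O (b L j) := by
      conv_lhs => rw [hGe]
      rw [map_sum]
      refine Finset.sum_congr rfl fun j _ => ?_
      rw [map_mul, map_C]
    rw [h1, Finset.sum_comm]
    refine Finset.sum_congr rfl fun j _ => ?_
    rw [hrdb, gaR_R, Finset.mul_sum]
    refine Finset.sum_congr rfl fun i _ => ?_
    have h2 : rd O (b 0 i) = C (IsLocalRing.residue O (coeff 0 (b 0 i))) := by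
      conv_lhs => rw [hb0 i]
      rw [map_C]
    rw [h2]
    ring

end Pool.Agent.CLK
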