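import Pool.Agent.CLK.Defs
import Pool.Agent.CLO.Gts
import Pool.Agent.CWA.CovN

/-!
# CLK: residues of small algebras are covered
-/

set_option autoImplicit false

namespace Pool.Agent.CLK

open MvPolynomial Pool.Agent.ORB Pool.Agent.ORA Pool.Agent.CWR Pool.Agent.CLO

variable {n : ℕ} {O : Type*} [CommRing O] [IsDomain O] [ValuationRing O] {K : Type*} [Field K]
  [Algebra O K] [IsFractionRing O K] [CharZero (RF O)]

omit [CommRing O] [IsDomain O] [ValuationRing O] [Algebra O K] [IsFractionRing O K]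
  [CharZero (RF O)] in
private theorem ResC_pd (v : Fin n) (S : Set (MvPolynomial (Fin n) K))
    (B : Subalgebra K (MvPolynomial (Fin n) K)) (h1 : ∀ x ∈ S, x ∈ B)
    (h2 : ∀ x ∈ S, pderiv v x ∈ B) {F : MvPolynomial (Fin n) K} (hF : F ∈ Algebra.adjoin K S) :
    F ∈ B ∧ pderiv v F ∈ B := by
  induction hF using Algebra.adjoin_induction with
  | mem x hx => exact ⟨h1 x hx, h2 x hx⟩
  | algebraMap r =>
    refine ⟨B.algebraMap_mem r, ?_⟩
    have e1 : pderiv v (algebraMap K (MvPolynomial (Fin n) K) r) = 0 := by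
      show pderiv v (C r) = 0
      exact pderiv_C
    rw [e1]
    exact B.zero_mem
  | add x y _ _ hx hy =>
    rw [map_add]
    exact ⟨B.add_mem hx.1 hy.1, B.add_mem hx.2 hy.2⟩
  | mul x y _ _ hx hy =>
    rw [pderiv_mul]
    exact ⟨B.mul_mem hx.1 hy.1, B.add_mem (B.mul_mem hx.2 hy.1) (B.mul_mem hx.1 hy.2)⟩

omit [CommRing O] [IsDomain O] [ValuationRing O] [Algebra O K] [IsFractionRing O K]
  [CharZero (RF O)] in
private theorem ResC_pd0 (v : Fin n) (S : Set (MvPolynomial (Fin n) K))
    (h2 : ∀ x ∈ S, pderiv v x = 0) {F : MvPolynomial (Fin n) K} (hF : F ∈ Algebra.adjoin K S) :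
    pderiv v F = 0 := by
  induction hF using Algebra.adjoin_induction with
  | mem x hx => exact h2 x hx
  | algebraMap r =>
    show pderiv v (C r) = 0
    exact pderiv_C
  | add x y _ _ hx hy => rw [map_add, hx, hy, add_zero]
  | mul x y _ _ hx hy => rw [pderiv_mul, hx, hy, zero_mul, mul_zero, add_zero]

omit [CommRing O] [IsDomain O] [ValuationRing O] [Algebra O K] [IsFractionRing O K]
  [CharZero (RF O)] in
private theorem ResC_card {t : ℕ} (g : Fin t → MvPolynomial (Fin n) K) (J : Fin t → Fin n)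
    (hdet : (Matrix.of fun i j => pderiv (J j) (g i)).det ≠ 0)
    (Q : Finset (MvPolynomial (Fin n) K))
    (hg : ∀ i, g i ∈ Algebra.adjoin K (Q : Set (MvPolynomial (Fin n) K))) : t ≤ Q.card := by
  classical
  have hinj : Function.Injective (algebraMap (MvPolynomial (Fin n) K) (QQ K n)) :=
    IsFractionRing.injective _ _
  have h1 : (Matrix.of fun i j => gr (g i) (J j)).det ≠ 0 := by
    have e1 : algebraMap (MvPolynomial (Fin n) K) (QQ K n)
        (Matrix.of fun i j => pderiv (J j) (g i)).det = (Matrix.of fun i j => gr (g i) (J j)).det := by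
      rw [RingHom.map_det]
      rfl
    rw [← e1]
    intro h0
    exact hdet (hinj (h0.trans (map_zero _).symm))
  have h2 := Matrix.linearIndependent_rows_of_det_ne_zero h1
  have h3 : LinearIndependent (QQ K n) (fun i => gr (g i)) := by
    refine LinearIndependent.of_comp (LinearMap.funLeft (QQ K n) (QQ K n) J) ?_
    exact h2
  set w : Finset (Fin n → QQ K n) := Q.image gr with hw
  have h4 : Set.range (fun i => gr (g i)) ≤ Submodule.span (QQ K n)
      ((w : Finset (Fin n → QQ K n)) : Set (Fin n → QQ K n)) := by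
    rintro _ ⟨i, rfl⟩
    refine gr_mem_of_adjoin _ _ (fun x hx => ?_) (hg i)
    refine Submodule.subset_span ?_
    rw [hw, Finset.coe_image]
    exact ⟨x, hx, rfl⟩
  have h5 := linearIndependent_le_span' _ h3 _ h4
  have h6 : Fintype.card ((w : Finset (Fin n → QQ K n)) : Set (Fin n → QQ K n)) = w.card := by
    simp
  rw [h6, Cardinal.mk_fin] at h5
  have h7 : t ≤ w.card := by exact_mod_cast h5
  exact h7.trans Finset.card_image_le

/- PLAN. As `CWA.Cov.of_H1` (CWA/CovN.lean).  `exists_linearIndependent'` over `QQ (RF O) n` for the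
family of the `gr (rd O f)`, `f` over `O` with `map f ∈ adjoin K Q` (the index set is finite because the
space `Fin n → QQ` is finite dimensional): `Ψ i = rd O (f i)`, `i : Fin t`, and
`exists_minor_of_rows` gives `J` with `Θ̄ = det (pderiv (J j) (Ψ i)) ≠ 0`.  `Θ̄ = rd O Θ`,
`Θ = det (pderiv (J j) (f i))`, so `map Θ = det (pderiv (J j) (map (f i))) ≠ 0` over `K`: the gradients of
the `map (f i)` are independent and in the span of the gradients of `Q` (`gr_mem_of_adjoin`), so
`t ≤ Q.card ≤ N`.  `map Θ ∈ adjoin K (Q ∪ {pderiv (J j) q})`, at most `N + N * N` elements of `𝓓`: `adj_hitC`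
(CLO/Gts.lean) with `G = Θ`, `x = 1` gives `Psi .. (c + N (N+1)) Θ̄ ≠ 0`.  `J j ∈ V` and
`pderiv v (Ψ i) = 0` for `v ∉ V`: `pderiv v` kills `adjoin K Q`, so `pderiv v (f i) = 0`
(`map_injective`).  The gradients are in the span by maximality. -/
theorem res_cov (φ : Fin n → MvPolynomial (Fin n) O) (u : O) (hu : IsUnit u)
    (hφ : (Matrix.of fun i j => pderiv i (φ j)).det = C u) (μ : ℕ)
    (hμ : LinearIndependent (RF O) (cvx (RF O) n μ)) {c N : ℕ} {𝓓 : Set (MvPolynomial (Fin n) K)}
    (h : H1c φ μ c 𝓓 (N * (N + 1))) (Q : Finset (MvPolynomial (Fin n) K))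
    (hQ : ∀ x ∈ Q, x ∈ 𝓓 ∧ ∀ v, pderiv v x ∈ 𝓓) (hN : Q.card ≤ N) {V : Set (Fin n)}
    (hV : ∀ x ∈ Q, ∀ v ∉ V, pderiv v x = 0) :
    CWA.Cov (fun j => rd O (φ j)) μ (c + N * (N + 1)) Q.card
      {g | ∃ f : MvPolynomial (Fin n) O, MvPolynomial.map (algebraMap O K) f ∈
        Algebra.adjoin K (Q : Set (MvPolynomial (Fin n) K)) ∧ rd O f = g} V := by
  classical
  set 𝒯 : Set (MvPolynomial (Fin n) (RF O)) := {g | ∃ f : MvPolynomial (Fin n) O,
    MvPolynomial.map (algebraMap O K) f ∈ Algebra.adjoin K (Q : Set (MvPolynomial (Fin n) K)) ∧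
      rd O f = g} with h𝒯
  obtain ⟨κ, a, ha, hs, hi⟩ := exists_linearIndependent' (QQ (RF O) n)
    (fun x : 𝒯 => gr (x : MvPolynomial (Fin n) (RF O)))
  have hfin : Finite κ := hi.finite
  have := Fintype.ofFinite κ
  set t := Fintype.card κ with ht
  set e : Fin t ≃ κ := (Fintype.equivFin κ).symm with he
  set Ψ : Fin t → MvPolynomial (Fin n) (RF O) :=
    fun j => (a (e j) : MvPolynomial (Fin n) (RF O)) with hΨ
  have hΨT : ∀ j, Ψ j ∈ 𝒯 := fun j => (a (e j)).2
  choose f hfm hfe using hΨT
  set A : Matrix (Fin t) (Fin n) (QQ (RF O) n) := Matrix.of fun j v => gr (Ψ j) v with hA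
  have hrow : LinearIndependent (QQ (RF O) n) A.row := by
    have h1 : A.row = ((fun x : 𝒯 => gr (x : MvPolynomial (Fin n) (RF O))) ∘ a) ∘ e := by
      funext j
      rfl
    rw [h1]
    exact hi.comp _ e.injective
  obtain ⟨J, hJ⟩ := Pool.Agent.Helper5.D4.exists_minor_of_rows A hrow
  have hmap : algebraMap (MvPolynomial (Fin n) (RF O)) (QQ (RF O) n)
      (Matrix.of fun i j => pderiv (J j) (Ψ i)).det = (A.submatrix id J).det := by
    rw [RingHom.map_det]
    rfl
  have hdet : (Matrix.of fun i j => pderiv (J j) (Ψ i)).det ≠ 0 := by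
    intro h0
    rw [h0, map_zero] at hmap
    exact hJ hmap.symm
  have hrd : rd O (Matrix.of fun i j => pderiv (J j) (f i)).det =
      (Matrix.of fun i j => pderiv (J j) (Ψ i)).det := by
    rw [RingHom.map_det]
    congr 1
    ext1 i j
    show rd O (pderiv (J j) (f i)) = pderiv (J j) (Ψ i)
    rw [← hfe i]
    exact pderiv_map.symm
  have hmp : MvPolynomial.map (algebraMap O K) (Matrix.of fun i j => pderiv (J j) (f i)).det =
      (Matrix.of fun i j => pderiv (J j) (MvPolynomial.map (algebraMap O K) (f i))).det := by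
    rw [RingHom.map_det]
    congr 1
    ext1 i j
    show MvPolynomial.map (algebraMap O K) (pderiv (J j) (f i)) = _
    exact pderiv_map.symm
  have hinj : Function.Injective (MvPolynomial.map (σ := Fin n) (algebraMap O K)) :=
    MvPolynomial.map_injective _ (IsFractionRing.injective O K)
  have hdetK : (Matrix.of fun i j => pderiv (J j) (MvPolynomial.map (algebraMap O K) (f i))).det ≠
      0 := by
    rw [← hmp]
    intro h0
    have h1 := hinj (h0.trans (map_zero _).symm)
    rw [h1, map_zero] at hrd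
    exact hdet hrd.symm
  have htQ : t ≤ Q.card := ResC_card _ J hdetK Q hfm
  have hkill : ∀ j, ∀ v ∉ V, pderiv v (Ψ j) = 0 := by
    intro j v hv
    have h1 : MvPolynomial.map (algebraMap O K) (pderiv v (f j)) = 0 := by
      rw [← pderiv_map]
      exact ResC_pd0 v _ (fun x hx => hV x hx v hv) (hfm j)
    have h2 := hinj (h1.trans (map_zero _).symm)
    rw [← hfe j]
    show pderiv v (MvPolynomial.map (IsLocalRing.residue O) (f j)) = 0
    rw [pderiv_map, h2, map_zero]
  refine ⟨t, htQ, Ψ, J, ?_, hkill, ?_, ?_⟩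
  · intro j
    by_contra hj
    apply hdet
    refine Matrix.det_eq_zero_of_column_eq_zero j fun i => ?_
    exact hkill i (J j) hj
  · set PP : Finset (MvPolynomial (Fin n) K) := Q ∪
      (Finset.univ : Finset (Fin t)).biUnion fun j => Q.image fun q => pderiv (J j) q with hPP
    have hcard : PP.card ≤ N * (N + 1) := by
      have h1 : ((Finset.univ : Finset (Fin t)).biUnion fun j =>
          Q.image fun q => pderiv (J j) q).card ≤ t * Q.card := by
        refine Finset.card_biUnion_le.trans ?_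
        refine (Finset.sum_le_card_nsmul _ _ Q.card fun j _ => Finset.card_image_le).trans ?_
        rw [Finset.card_univ, Fintype.card_fin, smul_eq_mul]
      calc PP.card ≤ Q.card + t * Q.card := (Finset.card_union_le _ _).trans (by omega)
        _ ≤ N + N * N := Nat.add_le_add hN (Nat.mul_le_mul (htQ.trans hN) hN)
        _ = N * (N + 1) := by ring
    have hmem : ∀ p ∈ PP, p ∈ 𝓓 := by
      intro p hp
      rcases Finset.mem_union.1 hp with hp | hp
      · exact (hQ p hp).1
      · obtain ⟨j, -, hp⟩ := Finset.mem_biUnion.1 hp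
        obtain ⟨q, hq, rfl⟩ := Finset.mem_image.1 hp
        exact (hQ q hq).2 _
    have hadj : (Matrix.of fun i j => pderiv (J j) (MvPolynomial.map (algebraMap O K) (f i))).det ∈
        Algebra.adjoin K (PP : Set (MvPolynomial (Fin n) K)) := by
      refine det_mem fun i j => ?_
      show pderiv (J j) (MvPolynomial.map (algebraMap O K) (f i)) ∈ _
      refine (ResC_pd (J j) (Q : Set (MvPolynomial (Fin n) K)) _ ?_ ?_ (hfm i)).2
      · intro x hx
        refine Algebra.subset_adjoin ?_
        have h1 : x ∈ PP := Finset.mem_union_left _ hx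
        exact h1
      · intro x hx
        refine Algebra.subset_adjoin ?_
        have h1 : pderiv (J j) x ∈ PP := Finset.mem_union_right _
          (Finset.mem_biUnion.2 ⟨j, Finset.mem_univ _, Finset.mem_image_of_mem _ hx⟩)
        exact h1
    have hP := adj_hitC φ u hu hφ μ hμ h PP hmem hcard _ hadj
    have hP1 := hP (Matrix.of fun i j => pderiv (J j) (f i)).det 1 one_ne_zero
      (by rw [one_smul]; exact hmp) (by rw [hrd]; exact hdet)
    rw [hrd] at hP1
    exact hP1
  · intro τ hτ
    have h1 : gr τ ∈ Submodule.span (QQ (RF O) n)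
        (Set.range fun x : 𝒯 => gr (x : MvPolynomial (Fin n) (RF O))) :=
      Submodule.subset_span ⟨⟨τ, hτ⟩, rfl⟩
    rw [← hs] at h1
    have h2 : Set.range ((fun x : 𝒯 => gr (x : MvPolynomial (Fin n) (RF O))) ∘ a) =
        Set.range fun j => gr (Ψ j) := by
      ext x
      constructor
      · rintro ⟨k, rfl⟩
        refine ⟨e.symm k, ?_⟩
        simp [hΨ]
      · rintro ⟨j, rfl⟩
        exact ⟨e j, rfl⟩
    rw [h2] at h1
    exact h1

end Pool.Agent.CLK
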