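import Pool.Agent.CLK.GaR
import Pool.Agent.CLK.ResC
import Pool.Agent.CWA.RHit

/-!
# CLK: programs over few polynomials per layer are preserved
-/

set_option autoImplicit false

namespace Pool.Agent.CLK

open MvPolynomial Pool.Agent.ORB Pool.Agent.ORA Pool.Agent.CWR Pool.Agent.CLO

variable {n : ℕ} {O : Type*} [CommRing O] [IsDomain O] [ValuationRing O] {K : Type*} [Field K]
  [Algebra O K] [IsFractionRing O K] [CharZero (RF O)]

private theorem hitC_comm {F : Type*} [Field F] (u v : Fin n) (x : MvPolynomial (Fin n) F) :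
    pderiv v (pderiv u x) = pderiv u (pderiv v x) := by
  have h : ⁅(pderiv v : Derivation F (MvPolynomial (Fin n) F) (MvPolynomial (Fin n) F)),
      (pderiv u : Derivation F (MvPolynomial (Fin n) F) (MvPolynomial (Fin n) F))⁆ = 0 := by
    apply MvPolynomial.derivation_ext
    intro i
    rw [Derivation.commutator_apply, pderiv_X, pderiv_X, Derivation.zero_apply]
    have h1 : ∀ (a b : Fin n), (Pi.single a (1 : MvPolynomial (Fin n) F) : Fin n → _) b = 0 ∨
        (Pi.single a (1 : MvPolynomial (Fin n) F) : Fin n → _) b = 1 := by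
      intro a b
      by_cases hab : b = a
      · subst hab
        exact Or.inr (Pi.single_eq_same _ _)
      · exact Or.inl (Pi.single_eq_of_ne hab _)
    rcases h1 u i with h2 | h2 <;> rcases h1 v i with h3 | h3 <;> rw [h2, h3] <;> simp
  have h2 := DFunLike.congr_fun h x
  rw [Derivation.commutator_apply, Derivation.zero_apply, sub_eq_zero] at h2
  exact h2

private theorem hitC_kill {F : Type*} [Field F] {S : Set (MvPolynomial (Fin n) F)} {v : Fin n}
    (hS : ∀ x ∈ S, pderiv v x = 0) {y : MvPolynomial (Fin n) F} (hy : y ∈ Algebra.adjoin F S) :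
    pderiv v y = 0 := by
  induction hy using Algebra.adjoin_induction with
  | mem y hy => exact hS y hy
  | algebraMap r => rw [Derivation.map_algebraMap]
  | add y z hy hz ihy ihz => rw [map_add, ihy, ihz, add_zero]
  | mul y z hy hz ihy ihz => rw [Derivation.leibniz, ihy, ihz, smul_zero, smul_zero, add_zero]

/- PLAN. As `CWA.lcov_of_H1` (CWA/RHit.lean): for `l`, `I` take
`Q = P l ∪ I.biUnion fun v => (P l).image (pderiv v)`, `|Q| ≤ (|I|+1) N ≤ (w²+1) N` and
`≤ max 1 |I| * (2 N)`; its members and their derivatives are in `Dc 𝓑 (m + 3)`; `res_cov`.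
The entries of `M l` are `rd O f`, `map f ∈ adjoin K (P l)`; their derivatives are `rd O (pderiv v f)` with
`map (pderiv v f) = pderiv v (map f) ∈ adjoin K Q` (`CWA.pderiv_mem_adjoin'`). -/
theorem lcov_res (φ : Fin n → MvPolynomial (Fin n) O) (u : O) (hu : IsUnit u)
    (hφ : (Matrix.of fun i j => pderiv i (φ j)).det = C u) (μ : ℕ)
    (hμ : LinearIndependent (RF O) (cvx (RF O) n μ)) {blk : Fin n → ℕ} {c m N w : ℕ}
    {𝓑 : Set (MvPolynomial (Fin n) K)} (P : ℕ → Finset (MvPolynomial (Fin n) K))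
    (hN : ∀ l, (P l).card ≤ N) (hB : ∀ l, ∀ x ∈ P l, x ∈ Dc 𝓑 (m + 1))
    (hblk : ∀ l, ∀ x ∈ P l, ∀ v, blk v ≠ l → pderiv v x = 0)
    (h : H1c φ μ c (Dc 𝓑 (m + 3)) ((w ^ 2 + 1) * N * ((w ^ 2 + 1) * N + 1)))
    (M : ℕ → Matrix (Fin w) (Fin w) (MvPolynomial (Fin n) (RF O)))
    (hM : ∀ l i j, M l i j ∈ resA O (Algebra.adjoin K (P l : Set (MvPolynomial (Fin n) K)))) :
    CWA.LCov blk M (fun j => rd O (φ j)) μ (c + (w ^ 2 + 1) * N * ((w ^ 2 + 1) * N + 1))
      (2 * N) := by
  classical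
  have hOinj : Function.Injective (algebraMap O K) := IsFractionRing.injective O K
  have hOchar : CharZero O := (IsLocalRing.residue O).charZero
  have hKchar : CharZero K := charZero_of_injective_algebraMap hOinj
  intro l I hI hIw
  obtain ⟨Q, hQ⟩ : ∃ Q : Finset (MvPolynomial (Fin n) K),
      Q = P l ∪ I.biUnion fun v => (P l).image (pderiv v) := ⟨_, rfl⟩
  have hmem : ∀ x ∈ Q, x ∈ P l ∨ ∃ u ∈ I, ∃ y ∈ P l, pderiv u y = x := by
    intro x hx
    rw [hQ, Finset.mem_union, Finset.mem_biUnion] at hx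
    rcases hx with hx | ⟨u, hu, hx⟩
    · exact Or.inl hx
    · obtain ⟨y, hy, rfl⟩ := Finset.mem_image.1 hx
      exact Or.inr ⟨u, hu, y, hy, rfl⟩
  have hcard : Q.card ≤ (I.card + 1) * N := by
    rw [hQ]
    refine (Finset.card_union_le _ _).trans ?_
    have h1 : (I.biUnion fun v => (P l).image (pderiv v)).card ≤ I.card * N :=
      Finset.card_biUnion_le_card_mul _ _ _ fun v _ => Finset.card_image_le.trans (hN l)
    have h2 := hN l
    calc _ ≤ N + I.card * N := Nat.add_le_add h2 h1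
      _ = (I.card + 1) * N := by ring
  have hD2 : ∀ x ∈ Q, x ∈ Dc 𝓑 (m + 2) := by
    intro x hx
    rcases hmem x hx with hx | ⟨u, hu, y, hy, rfl⟩
    · obtain ⟨L, hL, b, hb, rfl⟩ := hB l x hx
      exact ⟨L, by omega, b, hb, rfl⟩
    · obtain ⟨L, hL, b, hb, rfl⟩ := hB l y hy
      exact ⟨u :: L, by rw [List.length_cons]; omega, b, hb, rfl⟩
  have h1 : ∀ x ∈ Q, x ∈ Dc 𝓑 (m + 3) ∧ ∀ v, pderiv v x ∈ Dc 𝓑 (m + 3) := by
    intro x hx
    obtain ⟨L, hL, b, hb, rfl⟩ := hD2 x hx
    exact ⟨⟨L, by omega, b, hb, rfl⟩, fun v =>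
      ⟨v :: L, by rw [List.length_cons]; omega, b, hb, rfl⟩⟩
  have h2 : ∀ x ∈ Q, ∀ v ∉ lay blk l (l + 1), pderiv v x = 0 := by
    intro x hx v hv
    have hv' : blk v ≠ l := by
      rintro rfl
      exact hv ⟨le_rfl, Nat.lt_succ_self _⟩
    rcases hmem x hx with hx | ⟨u, hu, y, hy, rfl⟩
    · exact hblk l x hx v hv'
    · rw [hitC_comm, hblk l y hy v hv', map_zero]
  have hQN : Q.card ≤ (w ^ 2 + 1) * N := hcard.trans (Nat.mul_le_mul_right _ (Nat.succ_le_succ hIw))
  have h3 := res_cov φ u hu hφ μ hμ h Q h1 hQN h2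
  have h5 : I.card + 1 ≤ max 1 I.card * 2 := by omega
  refine h3.mono le_rfl (hcard.trans ?_) ?_ subset_rfl
  · calc (I.card + 1) * N ≤ max 1 I.card * 2 * N := Nat.mul_le_mul_right _ h5
      _ = max 1 I.card * (2 * N) := by ring
  · have hsub : (P l : Set (MvPolynomial (Fin n) K)) ⊆ (Q : Set (MvPolynomial (Fin n) K)) := by
      intro x hx
      rw [hQ]
      exact Finset.mem_coe.2 (Finset.mem_union_left _ (Finset.mem_coe.1 hx))
    rintro x (⟨i, j, rfl⟩ | ⟨v, hv, i, j, rfl⟩)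
    · obtain ⟨f, hf, hfe⟩ := mem_resA.1 (hM l i j)
      exact ⟨f, Algebra.adjoin_mono hsub hf, hfe⟩
    · obtain ⟨f, hf, hfe⟩ := mem_resA.1 (hM l i j)
      refine ⟨pderiv v f, ?_, ?_⟩
      · rw [← pderiv_map]
        refine CWA.pderiv_mem_adjoin' hsub ?_ hf
        intro x hx
        rw [hQ]
        exact Finset.mem_coe.2 (Finset.mem_union_right _ (Finset.mem_biUnion.2
          ⟨v, hv, Finset.mem_image_of_mem _ (Finset.mem_coe.1 hx)⟩))
      · rw [← hfe]
        exact pderiv_map.symm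

/- PLAN. Let `G`, `x` be as in the definition of `Pres`.  `gauss_RA` gives a program for `rd O G` over the
algebras `resA O (adjoin K (P l))`; then the proof of `CWA.RA_hit` (CWA/RHit.lean): `Lay blk M` (the members
of `resA O (adjoin K (P l))` are killed by `pderiv v`, `blk v ≠ l`), `CWA.hit_ents` with `lcov_res`,
`CWA.Good` for `fun j => rd O (φ j)` (`det = C (residue u)`, compare `CLO.det_map` in CLO/LfA.lean). -/
theorem RA_hitC (φ : Fin n → MvPolynomial (Fin n) O) (u : O) (hu : IsUnit u)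
    (hφ : (Matrix.of fun i j => pderiv i (φ j)).det = C u) (μ : ℕ)
    (hμ : LinearIndependent (RF O) (cvx (RF O) n μ)) {blk : Fin n → ℕ} {c m N w L : ℕ}
    {𝓑 : Set (MvPolynomial (Fin n) K)} (P : ℕ → Finset (MvPolynomial (Fin n) K))
    (hN : ∀ l, (P l).card ≤ N) (hB : ∀ l, ∀ x ∈ P l, x ∈ Dc 𝓑 (m + 1))
    (hblk : ∀ l, ∀ x ∈ P l, ∀ v, blk v ≠ l → pderiv v x = 0)
    (h : H1c φ μ c (Dc 𝓑 (m + 3)) ((w ^ 2 + 1) * N * ((w ^ 2 + 1) * N + 1)))
    {F : MvPolynomial (Fin n) K}
    (hF : RA (fun l => Algebra.adjoin K (P l : Set (MvPolynomial (Fin n) K))) L w F) :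
    Pres O (Psi (fun j => rd O (φ j)) μ
      (c + (w ^ 2 + 1) * N * ((w ^ 2 + 1) * N + 1) + EE w (2 * N))) F := by
  classical
  have hOinj : Function.Injective (algebraMap O K) := IsFractionRing.injective O K
  have hOchar : CharZero O := (IsLocalRing.residue O).charZero
  have hKchar : CharZero K := charZero_of_injective_algebraMap hOinj
  intro G x hx hG hG0
  have hkill : ∀ l, ∀ y ∈ Algebra.adjoin K (P l : Set (MvPolynomial (Fin n) K)), ∀ v,
      blk v ≠ l → pderiv v y = 0 :=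
    fun l y hy v hv => hitC_kill (fun z hz => hblk l z (Finset.mem_coe.1 hz) v hv) hy
  obtain ⟨M, u', v', hM, hGe⟩ := gauss_RA
    (fun l => Algebra.adjoin K (P l : Set (MvPolynomial (Fin n) K))) hkill hF G x hG
  have hLay : Lay blk M := by
    intro l v hv
    ext1 i j
    rw [dm, Matrix.map_apply, Matrix.zero_apply]
    obtain ⟨f, hf, hfe⟩ := mem_resA.1 (hM l i j)
    have h1 : pderiv v f = 0 := by
      apply MvPolynomial.map_injective _ hOinj
      rw [← pderiv_map, map_zero]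
      exact hkill l _ hf v hv
    rw [← hfe]
    refine pderiv_map.trans ?_
    rw [h1, map_zero]
  have hgood : CWA.Good (fun j => rd O (φ j)) μ := by
    refine ⟨⟨IsLocalRing.residue O u, (IsLocalRing.residue_ne_zero_iff_isUnit u).2 hu, ?_⟩, hμ⟩
    have h1 := congrArg (MvPolynomial.map (IsLocalRing.residue O)) hφ
    rw [RingHom.map_det, map_C] at h1
    rw [← h1]
    congr 1
    ext1 i j
    rw [Matrix.of_apply, RingHom.mapMatrix_apply, Matrix.map_apply, Matrix.of_apply, pderiv_map]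
  refine CWA.hit_ents hLay (lcov_res φ u hu hφ μ hμ P hN hB hblk h M hM) hgood L hG0 ?_
  rw [hGe]
  refine Submodule.sum_mem _ fun i _ => Submodule.sum_mem _ fun j _ => ?_
  have h1 : C (u' i) * iprod M 0 L i j * C (v' j) = (u' i * v' j) • iprod M 0 L i j := by
    rw [smul_eq_C_mul, C_mul]
    ring
  rw [h1]
  exact Submodule.smul_mem _ _ (Submodule.subset_span ⟨i, j, rfl⟩)

end Pool.Agent.CLK
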