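import Pool.Agent.CLK.Fin
import Pool.Agent.CLO.ExaB

/-!
# CLK: limits of read-once oblivious branching programs are in the class
-/

set_option autoImplicit false

namespace Pool.Agent.CLK

open MvPolynomial Pool.Agent.ORB Pool.Agent.ORG Pool.Agent.ORA Pool.Agent.CWR Pool.Agent.CLO

variable {K : Type*} [Field K] {n : ℕ}

/-- a variable is a leaf of the frame `∂/∂y_j` -/
theorem leaf_X (v : Fin n) :
    Leaf (1 : Matrix (Fin n) (Fin n) (MvPolynomial (Fin n) K)) 1 1 1 (X v) := by
  have h1 : SPE.junta (X 0 : MvPolynomial (Fin 1) K) (fun _ => 0)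
      (fun _ => (Pi.single v (1 : K) : Fin n → K)) = X v := by
    have h2 := junta_single (K := K) (fun _ : Fin 1 => v) (X 0 : MvPolynomial (Fin 1) K)
    rw [rename_X] at h2
    exact h2
  have h3 := leaf_one (K := K) (n := n) 1 1 1 0 1 (fun i => i.elim0) (fun i => i.elim0)
    (fun i => i.elim0) (fun i => i.elim0) (fun i => i.elim0) (by simp)
    (fun _ => (X 0 : MvPolynomial (Fin 1) K)) (fun _ _ => 0)
    (fun _ _ => (Pi.single v (1 : K) : Fin n → K)) (fun _ => 1) (le_refl 1)
    (fun _ => totalDegree_X_le 0) (fun _ => le_refl 1) (by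
      rw [Finset.univ_eq_empty, Finset.prod_empty, one_mul, Fin.prod_univ_one, h1]
      exact totalDegree_X_le v)
  rw [Finset.univ_eq_empty, Finset.prod_empty, one_mul, Fin.prod_univ_one, h1, pow_one] at h3
  exact h3

/-- polynomials in at most `q` variables -/
theorem circ_of_vars {q w : ℕ} {β : ℕ → Option (Fin n → ℕ)} (hβ : β 0 = none)
    {𝓛 : MvPolynomial (Fin n) K → Prop} (h𝓛 : ∀ v, 𝓛 (X v))
    (A : Finset (Fin n)) (hA : A.card ≤ q) (F : MvPolynomial (Fin n) K) (hF : ∀ x ∈ F.vars, x ∈ A) :
    Circ q w β 𝓛 1 F := by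
  have hinj : Function.Injective (fun i : Fin A.card => ((A.equivFin.symm i : A) : Fin n)) := by
    intro i j hij
    exact A.equivFin.symm.injective (Subtype.ext hij)
  have hr : (F.vars : Set (Fin n)) ⊆
      Set.range (fun i : Fin A.card => ((A.equivFin.symm i : A) : Fin n)) := by
    intro x hx
    have hxA : x ∈ A := hF x (Finset.mem_coe.mp hx)
    refine ⟨A.equivFin ⟨x, hxA⟩, ?_⟩
    simp
  obtain ⟨p, hp⟩ := MvPolynomial.exists_rename_eq_of_vars_subset_range F _ hinj hr
  have h1 : F = MvPolynomial.aeval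
      (fun i : Fin A.card => (X ((A.equivFin.symm i : A) : Fin n) : MvPolynomial (Fin n) K)) p := by
    rw [← hp]
    have h2 : (MvPolynomial.rename (fun i : Fin A.card => ((A.equivFin.symm i : A) : Fin n)) :
        MvPolynomial (Fin A.card) K →ₐ[K] MvPolynomial (Fin n) K) =
        MvPolynomial.aeval (fun i : Fin A.card =>
          (X ((A.equivFin.symm i : A) : Fin n) : MvPolynomial (Fin n) K)) := by
      refine MvPolynomial.algHom_ext (fun i => ?_)
      rw [MvPolynomial.rename_X, MvPolynomial.aeval_X]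
    rw [h2]
  rw [h1]
  exact Circ.comp (Δ := 0) hβ _ (fun l => Circ.leaf (h𝓛 _)) hA p

theorem circ_of_roabp {q w : ℕ} {blk : Fin n → ℕ}
    {𝓛 : MvPolynomial (Fin n) K → Prop} (h𝓛 : ∀ v, 𝓛 (X v))
    (hq : ∀ l, (Finset.univ.filter fun v => blk v = l).card ≤ q) {F : MvPolynomial (Fin n) K}
    (hF : ROABP blk w F) : Circ q w (fun j => if j = 0 then none else some blk) 𝓛 2 F := by
  obtain ⟨L, M, u, v, hv, rfl⟩ := hF
  refine Circ.abp (Δ := 1) (blk := blk) (by simp) (le_refl w) M (fun l hl i j => ?_) hv u v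
  refine circ_of_vars (by simp) h𝓛 (Finset.univ.filter fun v => blk v = l) (hq l) (M l i j)
    (fun x hx => ?_)
  exact Finset.mem_filter.mpr ⟨Finset.mem_univ x, hv l hl i j x hx⟩

/-- Limits of orbits of read-once oblivious programs of width `w` with at most `q` variables per layer,
in unknown order. -/
theorem limitCirc_of_roabp.{u, v, x} {n q w : ℕ} {F : Type x} [Field F] (O : Type u) [CommRing O]
    [IsDomain O] [ValuationRing O] (K : Type v) [Field K] [Algebra O K] [IsFractionRing O K]
    (res : O →+* F) [IsLocalHom res] (φ : Fin n → MvPolynomial (Fin n) O) (b : O) (hb : IsUnit b)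
    (hφ : (Matrix.of fun i j => pderiv i (φ j)).det = C b) {blk : Fin n → ℕ}
    (hq : ∀ l, (Finset.univ.filter fun v => blk v = l).card ≤ q) (h : MvPolynomial (Fin n) O)
    (hh : ROABP blk w (MvPolynomial.map (algebraMap O K) h)) :
    LimitCirc.{u, v, x} n q 1 w 1 1 1 2 (MvPolynomial.map res (aeval φ h)) := by
  refine ⟨O, inferInstance, inferInstance, inferInstance, K, inferInstance, inferInstance,
    inferInstance, res, inferInstance, φ, b, 1, fun j => if j = 0 then none else some blk, 1,
    fun _ => MvPolynomial.map (algebraMap O K) h, h, hb, hφ, fun j i => ?_, ?_, fun _ => ?_,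
    fun t _ => ?_, ?_, rfl⟩
  · rw [Matrix.one_apply]
    split_ifs
    · rw [totalDegree_one]
      exact Nat.zero_le _
    · rw [totalDegree_zero]
      exact Nat.zero_le _
  · rw [one_map]
    exact isFrame_one 1
  · rw [one_map]
    exact circ_of_roabp leaf_X hq hh
  · exact (Finset.card_le_univ t).trans (by simp)
  · exact isAlgebraic_algebraMap
      (⟨MvPolynomial.map (algebraMap O K) h, Algebra.subset_adjoin ⟨0, rfl⟩⟩ :
        Algebra.adjoin K (Set.range (fun _ : Fin 1 => MvPolynomial.map (algebraMap O K) h)))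

end Pool.Agent.CLK
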