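import Pool.Agent.CLK.RoK
import Pool.Agent.CLO.St

/-!
# CLK: the statement
-/

set_option autoImplicit false

namespace Pool.Agent.CLK

open MvPolynomial Pool.Agent.ORB Pool.Agent.ORG Pool.Agent.ORA Pool.Agent.CWR Pool.Agent.CLO

/-- The examples of frames and leaves (`AdditiveFrame`, `GaugeFrame` of `Pool.Agent.CLO`). -/
def Frames.{u, v} (n c s d : ℕ) : Prop :=
  ∀ (O : Type u) [CommRing O] [IsDomain O] [ValuationRing O] (K : Type v) [Field K] [Algebra O K],
    AdditiveFrame n c s d O K ∧
    ∀ (T w r : ℕ) (e : Fin n ≃ (Fin T × Fin w × Fin w) ⊕ Fin r) (cut : Finset (Fin T))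
      (B : Finset (Fin r)), 4 ^ w ≤ s → 2 ≤ s → GaugeFrame n c s d O K e cut B

/-- Limits of orbits of read-once oblivious programs of width `w`, in unknown order, with at most `q`
variables per layer, are in the class: `h` over the valuation ring `O` is computed over its fraction
field by such a program, `φ` is a polynomial map over `O` whose Jacobian determinant is a unit of `O`,
`res` is a local homomorphism from `O` to a field. -/
def ProgramLimits.{u, v, x} (n q w : ℕ) : Prop :=
  ∀ (F : Type x) [Field F] (O : Type u) [CommRing O] [IsDomain O] [ValuationRing O] (K : Type v)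
    [Field K] [Algebra O K] [IsFractionRing O K] (res : O →+* F) [IsLocalHom res]
    (φ : Fin n → MvPolynomial (Fin n) O) (b : O) (blk : Fin n → ℕ) (h : MvPolynomial (Fin n) O),
    IsUnit b → (Matrix.of fun i j => pderiv i (φ j)).det = C b →
    (∀ l, (Finset.univ.filter fun v => blk v = l).card ≤ q) →
    ROABP blk w (MvPolynomial.map (algebraMap O K) h) →
    LimitCirc.{u, v, x} n q 1 w 1 1 1 2 (MvPolynomial.map res (aeval φ h))

theorem frames.{u, v} (n c s d : ℕ) : Frames.{u, v} n c s d :=
  fun O _ _ _ K _ _ => ⟨additiveFrame n c s d O K,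
    fun _ _ _ e cut B h4 h2 => gaugeFrame n c s d O K e cut B h4 h2⟩

theorem programLimits.{u, v, x} (n q w : ℕ) : ProgramLimits.{u, v, x} n q w :=
  fun _ _ O _ _ _ K _ _ _ res _ φ b _ h hb hφ hq hh =>
    limitCirc_of_roabp O K res φ b hb hφ hq h hh

end Pool.Agent.CLK
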